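import Pool.Agent.Helper50.KP.Goals

/-! Packet KP-CIF. -/

set_option autoImplicit false

namespace Pool.Agent.Helper98.KP

open Pool.Agent.Helper50.KP

/-- which wires are locked -/
def lk (C : ℕ → Gate) (x : ℕ → Bool) (v : ℕ) : Bool :=
  if v % 4 < 2 then val C x (v / 4) else !val C x (v / 4)

lemma lk0 (C : ℕ → Gate) (x : ℕ → Bool) (j : ℕ) : lk C x (4 * j) = val C x j := by
  unfold lk
  rw [if_pos (by omega)]
  congr 1
  omega

lemma lk1 (C : ℕ → Gate) (x : ℕ → Bool) (j : ℕ) : lk C x (4 * j + 1) = val C x j := by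
  unfold lk
  rw [if_pos (by omega)]
  congr 1
  omega

lemma lk2 (C : ℕ → Gate) (x : ℕ → Bool) (j : ℕ) : lk C x (4 * j + 2) = !val C x j := by
  unfold lk
  rw [if_neg (by omega)]
  congr 2
  omega

lemma lk3 (C : ℕ → Gate) (x : ℕ → Bool) (j : ℕ) : lk C x (4 * j + 3) = !val C x j := by
  unfold lk
  rw [if_neg (by omega)]
  congr 2
  omega

theorem gCIF (hVAL : Pool.Agent.Helper50.KP.VAL) : Pool.Agent.Helper50.KP.CIF := by
  intro m C x hm hC h0
  have a1 : lk C x (4 * m - 1) = true := by
    have e : 4 * m - 1 = 4 * (m - 1) + 3 := by omega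
    rw [e, lk3, h0]
    rfl
  have a2 : lk C x (4 * m - 2) = true := by
    have e : 4 * m - 2 = 4 * (m - 1) + 2 := by omega
    rw [e, lk2, h0]
    rfl
  refine ⟨lk C x, a1, ?_⟩
  intro v hv
  have hi : v / 4 < m := by omega
  simp only []
  rcases hg : C (v / 4) with l | ⟨j, k⟩
  · have hval := hVAL.1 C x (v / 4) l hg
    by_cases hb : x l = decide (v % 4 < 2)
    · right
      have hp : pairs m x (decide (v % 4 < 2)) (.inp l) = [(4 * m - 2, 4 * m - 1)] := if_pos hb
      rw [hp]
      refine ⟨?_, [], (4 * m - 2, 4 * m - 1), [], rfl, a2, a1, by simp⟩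
      unfold lk
      by_cases h2 : v % 4 < 2
      · rw [if_pos h2, hval, hb]
        exact decide_eq_true h2
      · rw [if_neg h2, hval, hb, decide_eq_false h2]
        rfl
    · left
      have hp : pairs m x (decide (v % 4 < 2)) (.inp l) = [] := if_neg hb
      rw [hp]
      refine ⟨?_, by simp⟩
      unfold lk
      by_cases h2 : v % 4 < 2
      · rw [decide_eq_true h2] at hb
        rw [if_pos h2, hval]
        exact Bool.eq_false_iff.2 hb
      · rw [decide_eq_false h2] at hb
        rw [if_neg h2, hval]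
        cases hx : x l
        · exact absurd hx hb
        · rfl
  · obtain ⟨hj, hk⟩ := hC (v / 4) hi j k hg
    have hval := hVAL.2 C x (v / 4) j k hg hj hk
    have j0 := lk0 C x j
    have j2 := lk2 C x j
    have k1 := lk1 C x k
    have k3 := lk3 C x k
    unfold pairs
    simp only []
    by_cases h2 : v % 4 < 2
    · have hl : lk C x v = !(val C x j && val C x k) := by
        rw [← hval]
        unfold lk
        rw [if_pos h2]
      rw [hl]
      cases ha : val C x j <;> cases hb : val C x k <;> rw [ha] at j0 j2 <;> rw [hb] at k1 k3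
      · right
        refine ⟨rfl, [], (4 * j + 2, 4 * k + 3), [(4 * j + 2, 4 * k + 1), (4 * j, 4 * k + 3)],
          by simp [h2], j2, k3, ?_⟩
        simp [j0, k1]
      · right
        refine ⟨rfl, [(4 * j + 2, 4 * k + 3)], (4 * j + 2, 4 * k + 1), [(4 * j, 4 * k + 3)],
          by simp [h2], j2, k1, ?_⟩
        simp [j0, k3]
      · right
        refine ⟨rfl, [(4 * j + 2, 4 * k + 3), (4 * j + 2, 4 * k + 1)], (4 * j, 4 * k + 3), [],
          by simp [h2], j0, k3, ?_⟩
        simp [j2]
      · left
        refine ⟨rfl, ?_⟩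
        simp [h2, j2, k3]
    · have hl : lk C x v = (val C x j && val C x k) := by
        unfold lk
        rw [if_neg h2, hval, Bool.not_not]
      rw [hl]
      cases ha : val C x j <;> cases hb : val C x k <;> rw [ha] at j0 j2 <;> rw [hb] at k1 k3
      · left
        refine ⟨rfl, ?_⟩
        simp [h2, j0]
      · left
        refine ⟨rfl, ?_⟩
        simp [h2, j0]
      · left
        refine ⟨rfl, ?_⟩
        simp [h2, k1]
      · right
        exact ⟨rfl, [], (4 * j, 4 * k + 1), [], by simp [h2], j0, k1, by simp⟩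

end Pool.Agent.Helper98.KP
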